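import Mathlib

/-!
# Semistable abelian varieties over number fields: the objects in the parity conjecture

The data of a semistable abelian variety `A` over a number field `K` which determine the Mordell-Weil
ranks and the root numbers of `A` over all finite extensions `F` of `K`.
-/

set_option autoImplicit false

namespace Pool.Agent.Q274.AV

open NumberField IsDedekindDomain Module

/-- The vectors of a representation of a group which are fixed by all members of the set `H`. -/
def fixedBy {G V : Type} [Group G] [AddCommGroup V] [Module ℚ V] (ρ : Representation ℚ G V)
    (H : Set G) : Submodule ℚ V where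
  carrier := {x | ∀ σ ∈ H, ρ σ x = x}
  zero_mem' := fun _ _ => map_zero _
  add_mem' := fun {a b} ha hb σ hσ => by rw [map_add, ha σ hσ, hb σ hσ]
  smul_mem' := fun c x hx σ hσ => by rw [map_smul, hx σ hσ]

/-- The absolute Galois group of `K`. -/
abbrev AbsGal (K : Type) [Field K] : Type := Gal(AlgebraicClosure K/K)

/-- The absolute Galois group of `F` inside that of `K`: the automorphisms which are trivial on the
field `i(F)`, for a fixed embedding `i` of `F`. -/
def galOf (K F : Type) [Field K] [Field F] [Algebra K F] [Algebra.IsAlgebraic K F] :
    Set (AbsGal K) :=
  {σ | ∀ z : F, σ ((IsAlgClosed.lift : F →ₐ[K] AlgebraicClosure K) z) =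
    (IsAlgClosed.lift : F →ₐ[K] AlgebraicClosure K) z}

/-- Mordell-Weil: for all finite extensions `L` of `K` the vectors fixed by the absolute Galois group
of `L` form a space of finite dimension. -/
def MordellWeil {K : Type} [Field K] {V : Type} [AddCommGroup V] [Module ℚ V]
    (ρ : Representation ℚ (AbsGal K) V) : Prop :=
  ∀ L : IntermediateField K (AlgebraicClosure K), FiniteDimensional K L →
    FiniteDimensional ℚ (fixedBy ρ {σ | ∀ z ∈ L, σ z = z})

/-- A semistable abelian variety `A` over the number field `K`. At every prime `v` of `K` the connected
special fibre of the Néron model is an extension of an abelian variety by a torus; its group of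
characters, tensored with `ℚ`, is `ℚ ^ (torus v)`, and the Frobenius automorphism of the residue field
acts on it by the matrix `frob v`. -/
structure SemistableAV (K : Type) [Field K] [NumberField K] where
  /-- `A(K̄) ⊗ ℚ` -/
  V : Type
  [group : AddCommGroup V]
  [module : Module ℚ V]
  /-- the action of the absolute Galois group -/
  ρ : Representation ℚ (AbsGal K) V
  /-- `A(L) ⊗ ℚ`, the part fixed by the absolute Galois group of `L`, has finite dimension for all
  finite extensions `L` of `K` -/
  mordellWeil : MordellWeil ρ
  /-- the dimension of `A` -/
  dim : ℕ
  /-- the dimension of the torus at `v` -/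
  torus : HeightOneSpectrum (𝓞 K) → ℕ
  /-- the action of Frobenius on the characters of the torus at `v` -/
  frob : ∀ v : HeightOneSpectrum (𝓞 K), Matrix (Fin (torus v)) (Fin (torus v)) ℚ
  /-- almost all primes are primes of good reduction -/
  good : {v : HeightOneSpectrum (𝓞 K) | torus v ≠ 0}.Finite

attribute [instance] SemistableAV.group SemistableAV.module

section
variable {K : Type} [Field K] [NumberField K]

/-- the residue degree `f` over `K` of a prime `w` of `F` above `v`, `N(w) = N(v) ^ f` -/
noncomputable def resDeg (K : Type) [Field K] [NumberField K] {F : Type} [Field F] [NumberField F]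
    [Algebra K F] (w : HeightOneSpectrum (𝓞 F)) : ℕ :=
  Nat.log (Ideal.absNorm (w.under (𝓞 K)).asIdeal) (Ideal.absNorm w.asIdeal)

variable (A : SemistableAV K) (F : Type) [Field F] [NumberField F] [Algebra K F]

/-- the rank of `A(F)`, the dimension of `A(F) ⊗ ℚ` -/
noncomputable def SemistableAV.rank : ℕ := finrank ℚ (fixedBy A.ρ (galOf K F))

/-- for the torus at `v`, over the extension of degree `f` of the residue field: the dimension of the
largest split torus, the dimension `torus v - rank (frob v ^ f - 1)` of the space of the characters
fixed by `frob v ^ f` -/
noncomputable def SemistableAV.splitRank (v : HeightOneSpectrum (𝓞 K)) (f : ℕ) : ℕ :=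
  A.torus v - (A.frob v ^ f - 1).rank

/-- the dimension of the largest split torus at the prime `w` of `F` -/
noncomputable def SemistableAV.split {F : Type} [Field F] [NumberField F] [Algebra K F]
    (w : HeightOneSpectrum (𝓞 F)) : ℕ :=
  A.splitRank (w.under (𝓞 K)) (resDeg K w)

/-- the root number of `A/F`: the product of the local root numbers `(-1) ^ split w` at the primes and
`(-1) ^ dim A` at the archimedean places -/
noncomputable def SemistableAV.rootNumber : ℤ :=
  (∏ᶠ w : HeightOneSpectrum (𝓞 F), (-1) ^ A.split w) *
    ((-1) ^ A.dim) ^ Nat.card (InfinitePlace F)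

/-- the parity conjecture for `A` over `F` -/
def SemistableAV.Parity : Prop := (-1) ^ A.rank F = A.rootNumber F

end

/-- The number of the embeddings of `F` in the algebraic closure of `K` that are fixed by `σ`. -/
noncomputable def fix (K F : Type) [Field K] [Field F] [Algebra K F] (σ : AbsGal K) : ℕ :=
  Nat.card {i : F →ₐ[K] AlgebraicClosure K // ∀ x, σ (i x) = i x}

end Pool.Agent.Q274.AV
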