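import Pool.Agent.Q274.AV.Law
import Pool.Agent.Q92.PA.Hyp2
import Pool.Agent.Q92.PA.OddG
import Pool.Agent.Q5.RX.Deg
import Pool.Agent.Q223.LD.PLaw

/-! The parity of the total exponent of a semistable abelian variety in families of fields. -/

set_option autoImplicit false
set_option linter.unusedSectionVars false

namespace Pool.Agent.Q274.AV

open NumberField IsDedekindDomain Module Pool.Agent.W401.Cheb Pool.Agent.W353.NF Pool.Agent.Q5.BR
open scoped Classical

section
variable {K : Type} [Field K] [NumberField K] (A : SemistableAV K)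

/-- the relation over `K` itself -/
theorem tot_relK {ι : Type} [Fintype ι] {Y : ι → Ext K} {n : ι → ℤ} {m : ℤ}
    (h : ∀ τ : GK K, ∑ j, n j * (fixn K (Y j).F τ : ℤ) = m) :
    ∑ j, n j * (tot A (Y j).F : ℤ) = m * (tot A K : ℤ) := tot_rel A h

/-- families -/
theorem av_family {𝓕 : Set (IntermediateField K (AlgebraicClosure K))}
    (hF : Pool.Agent.Q92.PA.ExactAt 2 𝓕)
    (h : ∀ F ∈ 𝓕, ∀ [NumberField F], Even (tot A F)) : Even (tot A K) := by
  obtain ⟨ι, _, F, n, c, hc, hFj, hrel⟩ := Pool.Agent.Q92.PA.exactAt_relation Nat.prime_two hF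
  have hfd : ∀ j, FiniteDimensional K (F j) := fun j => hF.1 _ (hFj j)
  have hnf : ∀ j, NumberField (F j) := fun j => NumberField.of_module_finite K _
  let Y : ι → Ext K := fun j => @Ext.mk K _ _ (F j) _ (hnf j) _
  have h1 := tot_relK A (Y := Y) hrel
  refine Pool.Agent.Q92.PA.even_of_odd hc ?_
  rw [← h1]
  refine Finset.dvd_sum fun j _ => Dvd.dvd.mul_left ?_ _
  have h2 := h (F j) (hFj j)
  rw [even_iff_two_dvd] at h2
  exact_mod_cast h2

/-- the intermediate fields of a Galois extension -/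
theorem av_hyper (L : Type) [Field L] [NumberField L] [Algebra K L] [IsGalois K L]
    (h : ∀ (F : Type) [Field F] [NumberField F] [Algebra K F] [Algebra F L] [IsScalarTower K F L],
      Pool.Agent.Q92.PA.HyperP 2 (L ≃ₐ[F] L) → A.Parity F)
    (F : Type) [Field F] [NumberField F] [Algebra K F] [Algebra F L] [IsScalarTower K F L] :
    A.Parity F := by
  have hgal : IsGalois F L := IsGalois.tower_top_of_isGalois K F L
  obtain ⟨ι, _, Y, a, n, c, hst, hc, hY, hrel⟩ :=
    Pool.Agent.Q92.PA.hyperP_relation Nat.prime_two L F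
  let _ : ∀ j, Algebra K (Y j).F := fun j =>
    ((algebraMap F (Y j).F).comp (algebraMap K F)).toAlgebra
  have : ∀ j, IsScalarTower K F (Y j).F := fun j =>
    IsScalarTower.of_algebraMap_eq fun x => rfl
  have : ∀ j, IsScalarTower K (Y j).F L := fun j => by
    refine IsScalarTower.of_algebraMap_eq fun x => ?_
    change _ = algebraMap (Y j).F L (algebraMap F (Y j).F (algebraMap K F x))
    rw [← IsScalarTower.algebraMap_apply F (Y j).F L, ← IsScalarTower.algebraMap_apply K F L]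
  have h1 := (av_law A).step F ι Y n c hrel 1
    (fun j => (parity_iff' A (Y j).F).1 (h (Y j).F (hY j)))
  rw [mul_one] at h1
  rw [parity_iff]
  exact Pool.Agent.Q92.PA.even_of_odd hc h1

/-- radical extensions -/
theorem av_radical {p : ℕ} (hp : p.Prime) (hp2 : p ≠ 2) {T : Set ℕ} (hT : ∀ l ∈ T, l.Prime)
    (hinf : T.Infinite) (k : ℕ)
    (h : ∀ (F : Type) [Field F] [NumberField F] [Algebra K F], IsRadical T p K F →
      p ^ k ∣ Module.finrank K F → A.Parity F) : A.Parity K := by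
  have hpf : Fact p.Prime := ⟨hp⟩
  have h1 := Pool.Agent.Q5.VL.gen_radical_law' (av_law A) p hT hinf k
    (fun F' _ _ _ hr hd => (parity_iff' A F').1 (h F' hr hd))
  rw [parity_iff]
  refine Pool.Agent.Q92.PA.even_of_odd ?_ h1
  intro h2
  have h3 : 2 ∣ p ^ k := by exact_mod_cast h2
  have h4 := Nat.prime_two.dvd_of_dvd_pow h3
  exact hp2 ((Nat.prime_dvd_prime_iff_eq Nat.prime_two hp).1 h4).symm

/-- local degrees -/
theorem av_local {S : Finset ℕ} {D : ℕ → Set ℕ} (hS : ∀ q ∈ S, q.Prime)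
    (hD : ∀ q ∈ S, ∀ d ∈ D q, ∀ n : ℕ, 0 < n → d * n ∈ D q)
    (h : ∀ (F : Type) [Field F] [NumberField F] [Algebra K F],
      (∀ q ∈ S, ∀ w : Ideal (𝓞 F), w.IsPrime → (q : 𝓞 F) ∈ w →
        w.ramificationIdx ℤ * w.inertiaDeg ℤ ∈ D q) → A.Parity F)
    (F : Type) [Field F] [NumberField F] [Algebra K F]
    (hF : ∀ q ∈ S, ∃ d ∈ D q, d ≠ 0 ∧ ∀ w : Ideal (𝓞 F), w.IsPrime → (q : 𝓞 F) ∈ w →
      2 ^ d.factorization 2 ∣ w.ramificationIdx ℤ * w.inertiaDeg ℤ) : A.Parity F := by
  choose! d hd hd0 hd2 using hF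
  let e : ℕ := ∏ q ∈ S, ordCompl[2] (d q)
  have he2 : ¬ (2 : ℤ) ∣ (e : ℤ) := by
    intro h2
    have h3 : 2 ∣ e := by exact_mod_cast h2
    obtain ⟨q, hq, h4⟩ := (Nat.prime_two.prime.dvd_finset_prod_iff _).1 h3
    exact Nat.not_dvd_ordCompl Nat.prime_two (hd0 q hq) h4
  have he0 : e ≠ 0 := by
    intro h0
    apply he2
    rw [h0]
    exact dvd_zero _
  have key := Pool.Agent.Q223.LD.loc_gen_law (av_law A) hS hD
    (fun F' _ _ _ hF' => (parity_iff' A F').1 (h F' hF')) F he0
    (fun p hp => ⟨d, fun q hq => ⟨hd q hq, hd0 q hq, fun w hw hqw => by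
        rcases eq_or_ne p 2 with rfl | hp2
        · exact (hd2 q hq w hw hqw).mul_left _
        · refine Dvd.dvd.mul_right ?_ _
          refine Dvd.dvd.trans ?_ (Finset.dvd_prod_of_mem (fun q => ordCompl[2] (d q)) hq)
          have h5 : (p ^ (d q).factorization p).Coprime (2 ^ (d q).factorization 2) :=
            Nat.Coprime.pow _ _ ((Nat.coprime_primes hp Nat.prime_two).2 hp2)
          refine h5.dvd_of_dvd_mul_left ?_
          rw [Nat.ordProj_mul_ordCompl_eq_self]
          exact Nat.ordProj_dvd _ _⟩⟩)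
  rw [parity_iff]
  exact Pool.Agent.Q92.PA.even_of_odd he2 key

end

end Pool.Agent.Q274.AV
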