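import Pool.Agent.Q274.AV.Defs
import Pool.Agent.Q92.PA.Par
import Pool.Agent.Q5.VL.Up

/-! The numbers rank + root number exponent of a semistable abelian variety in a relation between
permutation characters. -/

set_option autoImplicit false
set_option linter.unusedSectionVars false

namespace Pool.Agent.Q274.AV

open NumberField IsDedekindDomain Module Pool.Agent.W401.Cheb Pool.Agent.W353.NF Pool.Agent.Q5.BR
open scoped Classical

section
variable {K : Type} [Field K] [NumberField K]

theorem fixed_eq {V : Type} [AddCommGroup V] [Module ℚ V]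
    (ρ : Representation ℚ (AbsGal K) V) {F : Type} [Field F] [Algebra K F]
    (i : F →ₐ[K] AlgebraicClosure K) :
    fixedBy ρ {σ | ∀ z : F, σ (i z) = i z} = Pool.Agent.Q5.VL.fixV ρ i := by
  ext x
  constructor
  · intro h σ hσ
    exact h σ fun z => DFunLike.congr_fun hσ z
  · intro h σ hσ
    exact h σ (AlgHom.ext fun z => hσ z)

theorem fixed_val {V : Type} [AddCommGroup V] [Module ℚ V]
    (ρ : Representation ℚ (AbsGal K) V) (L : IntermediateField K (AlgebraicClosure K)) :
    fixedBy ρ {σ | ∀ z ∈ L, σ z = z} = Pool.Agent.Q5.VL.fixV ρ L.val := by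
  rw [← fixed_eq]
  congr 1
  ext σ
  constructor
  · intro h z
    exact h z z.2
  · intro h z hz
    exact h ⟨z, hz⟩

theorem resDeg_eq {F : Type} [Field F] [NumberField F] [Algebra K F]
    (w : HeightOneSpectrum (𝓞 F)) : resDeg K w = rdeg K w := by
  unfold resDeg
  obtain ⟨p, k, hp, hk, h⟩ := Pool.Agent.Q5.DP.exists_pk (w.under (𝓞 K))
  have h1 : 1 < Ideal.absNorm (w.under (𝓞 K)).asIdeal := by
    rw [h]
    exact Nat.one_lt_pow hk.ne' hp.one_lt
  rw [absNorm_rdeg (K := K) w, Nat.log_pow h1]

variable (A : SemistableAV K)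

/-- the dimension of the space of the characters fixed by the `f`-th power of Frobenius -/
noncomputable def sr (v : HeightOneSpectrum (𝓞 K)) (f : ℕ) : ℕ := A.splitRank v f

theorem sr_zero {v : HeightOneSpectrum (𝓞 K)} (h : A.torus v = 0) (f : ℕ) : sr A v f = 0 := by
  unfold sr SemistableAV.splitRank
  exact Nat.sub_eq_zero_of_le (h.le.trans (Nat.zero_le _))

variable (F : Type) [Field F] [NumberField F] [Algebra K F]

/-- the sum of the dimensions of the split tori -/
noncomputable def tor : ℕ := ∑ v ∈ A.good.toFinset, ∑ w ∈ above F v, sr A v (rdeg K w)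

/-- rank, plus dimension times number of the infinite places, plus split tori -/
noncomputable def tot : ℕ := A.rank F + A.dim * Pool.Agent.Q92.PA.pl F + tor A F

theorem prod_eq : ∏ᶠ w : HeightOneSpectrum (𝓞 F), (-1 : ℤ) ^ A.split w = (-1) ^ tor A F := by
  have hs : ∀ w : HeightOneSpectrum (𝓞 F), A.split w = sr A (w.under (𝓞 K)) (rdeg K w) := by
    intro w
    unfold SemistableAV.split sr
    rw [resDeg_eq]
  have h1 : Function.mulSupport (fun w : HeightOneSpectrum (𝓞 F) => (-1 : ℤ) ^ A.split w) ⊆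
      (A.good.toFinset.biUnion fun v => above F v : Finset (HeightOneSpectrum (𝓞 F))) := by
    intro w hw
    rw [Finset.mem_coe, Finset.mem_biUnion]
    refine ⟨w.under (𝓞 K), ?_, mem_above.2 rfl⟩
    rw [Set.Finite.mem_toFinset]
    intro h0
    apply hw
    change (-1 : ℤ) ^ A.split w = 1
    rw [hs, sr_zero A h0, pow_zero]
  rw [finprod_eq_prod_of_mulSupport_subset _ h1, Finset.prod_pow_eq_pow_sum]
  congr 1
  unfold tor
  rw [Finset.sum_biUnion]
  · refine Finset.sum_congr rfl fun v _ => Finset.sum_congr rfl fun w hw => ?_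
    rw [hs, mem_above.1 hw]
  · intro v _ v' _ hne
    rw [Function.onFun, Finset.disjoint_left]
    intro w hw hw'
    exact hne ((mem_above.1 hw).symm.trans (mem_above.1 hw'))

theorem split_sum : ∑ᶠ w : HeightOneSpectrum (𝓞 F), A.split w = tor A F := by
  have hs : ∀ w : HeightOneSpectrum (𝓞 F), A.split w = sr A (w.under (𝓞 K)) (rdeg K w) := by
    intro w
    unfold SemistableAV.split sr
    rw [resDeg_eq]
  have h1 : Function.support (fun w : HeightOneSpectrum (𝓞 F) => A.split w) ⊆
      (A.good.toFinset.biUnion fun v => above F v : Finset (HeightOneSpectrum (𝓞 F))) := by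
    intro w hw
    rw [Finset.mem_coe, Finset.mem_biUnion]
    refine ⟨w.under (𝓞 K), ?_, mem_above.2 rfl⟩
    rw [Set.Finite.mem_toFinset]
    intro h0
    apply hw
    change A.split w = 0
    rw [hs, sr_zero A h0]
  rw [finsum_eq_sum_of_support_subset _ h1]
  unfold tor
  rw [Finset.sum_biUnion]
  · refine Finset.sum_congr rfl fun v _ => Finset.sum_congr rfl fun w hw => ?_
    rw [hs, mem_above.1 hw]
  · intro v _ v' _ hne
    rw [Function.onFun, Finset.disjoint_left]
    intro w hw hw'
    exact hne ((mem_above.1 hw).symm.trans (mem_above.1 hw'))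

theorem parity_iff : A.Parity F ↔ Even (tot A F) := by
  unfold SemistableAV.Parity SemistableAV.rootNumber tot
  have h1 : Nat.card (InfinitePlace F) = Pool.Agent.Q92.PA.pl F := rfl
  rw [prod_eq, h1, ← pow_mul, ← pow_add]
  have h2 : ((-1 : ℤ) ^ A.rank F = (-1) ^ (tor A F + A.dim * Pool.Agent.Q92.PA.pl F)) ↔
      (-1 : ℤ) ^ (A.rank F + (tor A F + A.dim * Pool.Agent.Q92.PA.pl F)) = 1 := by
    rw [pow_add (-1 : ℤ) (A.rank F)]
    rcases neg_one_pow_eq_or ℤ (A.rank F) with h | h <;>
    rcases neg_one_pow_eq_or ℤ (tor A F + A.dim * Pool.Agent.Q92.PA.pl F) with h' | h' <;>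
      rw [h, h'] <;> norm_num
  rw [h2, neg_one_pow_eq_one_iff_even (by norm_num)]
  have h3 : A.rank F + (tor A F + A.dim * Pool.Agent.Q92.PA.pl F) =
      A.rank F + A.dim * Pool.Agent.Q92.PA.pl F + tor A F := by ring
  rw [h3]

theorem rank_eq : A.rank F = Pool.Agent.Q5.VL.rk A.ρ F := by
  unfold SemistableAV.rank Pool.Agent.Q5.VL.rk galOf
  rw [fixed_eq]

variable {F}

/-- **The relation.** -/
theorem tot_rel {ι : Type} [Fintype ι] {Y : ι → Ext F} [∀ j, Algebra K (Y j).F]
    [∀ j, IsScalarTower K F (Y j).F] {n : ι → ℤ} {m : ℤ}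
    (h : ∀ τ : GK F, ∑ j, n j * (fixn F (Y j).F τ : ℤ) = m) :
    ∑ j, n j * (tot A (Y j).F : ℤ) = m * (tot A F : ℤ) := by
  have h1 := Pool.Agent.Q5.VL.rank_relation_up (K := K) A.ρ h (fun N hN => by
    have h2 := A.mordellWeil N hN
    rwa [fixed_val] at h2)
  have h2 := Pool.Agent.Q92.PA.pl_rel h
  have h3 : ∑ j, n j * (tor A (Y j).F : ℤ) = m * (tor A F : ℤ) := by
    let Z : Option ι → Ext K := fun o => match o with
      | none => Ext.mk F
      | some j => Ext.mk (Y j).F
    let c : Option ι → ℤ := fun o => match o with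
      | none => -m
      | some j => n j
    have hz : Rel Z c := by
      intro σ
      rw [Fintype.sum_option]
      change -m * (fixn K F σ : ℤ) + ∑ j, n j * (fixn K (Y j).F σ : ℤ) = 0
      rw [Pool.Agent.Q5.VL.rel_up h σ]
      ring
    have h4 : ∀ v : HeightOneSpectrum (𝓞 K),
        ∑ o, c o * ((∑ w ∈ above (Z o).F v, sr A v (rdeg K w) : ℕ) : ℤ) = 0 := by
      intro v
      have h5 := rel_sum (fun d => Pool.Agent.Q92.PA.rel_degrees_all hz v d)
        (fun d => (sr A v d : ℂ))
      exact_mod_cast h5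
    have h6 : ∑ o, c o * (tor A (Z o).F : ℤ) = 0 := by
      unfold tor
      simp only [Nat.cast_sum (s := A.good.toFinset), Finset.mul_sum (s := A.good.toFinset)]
      rw [Finset.sum_comm]
      exact Finset.sum_eq_zero fun v _ => h4 v
    rw [Fintype.sum_option] at h6
    change -m * (tor A F : ℤ) + ∑ j, n j * (tor A (Y j).F : ℤ) = 0 at h6
    linarith
  have h4 : ∀ j, n j * (tot A (Y j).F : ℤ) =
      n j * (Pool.Agent.Q5.VL.rk A.ρ (Y j).F : ℤ) +
        A.dim * (n j * (Pool.Agent.Q92.PA.pl (Y j).F : ℤ)) + n j * (tor A (Y j).F : ℤ) := by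
    intro j
    unfold tot
    rw [rank_eq]
    push_cast
    ring
  rw [Finset.sum_congr rfl fun j _ => h4 j, Finset.sum_add_distrib, Finset.sum_add_distrib,
    ← Finset.mul_sum, h1, h2, h3]
  unfold tot
  rw [rank_eq]
  push_cast
  ring

/-- **The law.** -/
theorem av_law : Pool.Agent.Q5.VL.IsLaw (K := K) (fun F _ _ _ t => (2 : ℤ) ∣ t * (tot A F : ℤ)) where
  zero := fun F _ _ _ => by rw [zero_mul]; exact dvd_zero _
  add := by
    intro F _ _ _ t u ht hu
    rw [add_mul]
    exact dvd_add ht hu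
  neg := by
    intro F _ _ _ t ht
    rw [neg_mul]
    exact (dvd_neg).2 ht
  step := by
    intro F _ _ _ ι _ Y _ _ n m hrel t hj
    have h1 := tot_rel A hrel
    have h2 : m * t * (tot A F : ℤ) = ∑ j, n j * (t * (tot A (Y j).F : ℤ)) := by
      have h3 : m * t * (tot A F : ℤ) = t * (m * (tot A F : ℤ)) := by ring
      rw [h3, ← h1, Finset.mul_sum]
      exact Finset.sum_congr rfl fun j _ => by ring
    rw [h2]
    exact Finset.dvd_sum fun j _ => (hj j).mul_left _

theorem parity_iff' (F : Type) [Field F] [NumberField F] [Algebra K F] :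
    A.Parity F ↔ (2 : ℤ) ∣ 1 * (tot A F : ℤ) := by
  rw [parity_iff, one_mul, even_iff_two_dvd, ← Int.natCast_dvd_natCast]
  rfl

theorem fix_eq {K F : Type} [Field K] [NumberField K] [Field F] [NumberField F] [Algebra K F]
    (σ : AbsGal K) : fix K F σ = Pool.Agent.W353.NF.fixn K F σ := by
  unfold fix Pool.Agent.W353.NF.fixn
  refine Nat.card_congr (Equiv.subtypeEquivRight fun i => ?_)
  rw [Pool.Agent.W353.NF.act_apply]
  constructor
  · intro h
    exact AlgHom.ext h
  · intro h x
    exact DFunLike.congr_fun h x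

end

end Pool.Agent.Q274.AV
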